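import Pool.Agent.J6H24.SS.FinG

/-!
# Semisimplicity of Frobenius on `H²` of fibred surfaces in abelian coverings of the base curve

Let `f : 𝒳 → X` be a smooth projective surface over the finite field with `q` elements which is fibred
over a smooth projective curve `X` (for example an elliptic surface), `K` the function field of `X`, and
`𝓕 = j_* R¹ f_* ℚ_ℓ` (the middle extension). For a closed point `v` of `X` let
`P_v(T) = det (1 - F_v T)` be the characteristic polynomial of Frobenius on the stalk of `𝓕` at `v`, and let
`N / D = ∏ P_v(T ^ deg v)⁻¹` be the L-function; here `N` is the characteristic polynomial of Frobenius on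
`H¹(X̄, 𝓕)` and `D = 1` if the Jacobian of the generic fibre has no constant part.

Let `M` be a Galois extension of `K` whose group `G` is abelian of order a power of a prime `p` with
`p ∤ q`, with the same field of constants, `X'` the curve belonging to `M` and `𝒳'` the smooth projective
surface fibred over `X'` with the generic fibre of `𝒳` over `M`; its geometric genus is in general
arbitrarily large. Then `H²(𝒳'̄)` is the direct sum of `H = H¹(X'̄, 𝓕')` and of the space spanned by
the classes of the components of the fibres and of a multisection. Let `T` be the finite set of the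
points of `X` which ramify in `M`; it is assumed that the inertia groups act unipotently on the
generic stalk of `𝓕` at the points in `T` (for example, good or multiplicative reduction). Also the
constant part is supposed not to grow (for example, `M` over `K` has degree prime to the orders of
the finite groups acting on it, or `p > 2 g + 1`), so that `H⁰` and `H²` of `𝓕'` have no parts for the
characters `χ ≠ 1` of `G`. The group acts nontrivially on `H¹(𝒳')` and `H³(𝒳')`. For `χ ≠ 1` let

`red_χ = N / D · ∏ P_v(T ^ deg v)  mod p`,

the product over the points `v` in `T` at which `χ` is ramified, and let `order χ` be the order of its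
zero `1 / q`.

Theorem. (1) The eigenvalues `x` of Frobenius on `H_χ`, `χ ≠ 1`, are algebraic integers, and
`∏ (1 - x T)` is congruent to `red_χ` modulo all places above `p`.
(2) The multiplicity of the eigenvalue `q` on `H_χ`, `χ ≠ 1`, is at most `order χ - sign χ`, where
`sign χ = 1` if `p = 2`, `χ² = 1` and `det Frob = -q ^ dim` on `H_χ`, and `sign χ = 0` otherwise.
(3) (the weak form of the question) Let `A` be a space of classes in `H` which is stable under `G`,
with Frobenius equal to `q` and nondegenerate for the pairing (`A = 0`, or the space spanned by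
sections: the points of the Jacobian over `M`). Suppose that for all `χ ≠ 1` we have
`order χ ≤ dim A_χ + sign χ + 1`, or `χ² = 1` and `order χ ≤ dim A_χ + sign χ + 2`. If Frobenius is
semisimple at the eigenvalue `q` on `H^G = H¹(X̄, 𝓕)` (that is, on `H²(𝒳̄)`), then it is semisimple at
`q` on `H²(𝒳'̄)`.
(4) Suppose that for all `χ ≠ 1` the polynomial `red_χ` is squarefree, or of the form
`(1 - q T) ^ j R`, where `R` is squarefree, `R(1 / q) ≠ 0`, and `j ≤ dim A_χ + 1`, or `χ² = 1` and
`j ≤ dim A_χ + 2`. If Frobenius is semisimple on `H^G` (that is, on `H²(𝒳̄)`), then it is semisimple on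
`H²(𝒳'̄)`.

For example, let `𝒳` be a rational or a K3 surface; here semisimplicity is known (Deligne). If `N` is
squarefree and `D = 1`, then for all but finitely many `p` the theorem gives the semisimplicity for all
these extensions `M` such that the polynomials `P_v(T ^ deg v)`, `v ∈ T`, are squarefree modulo `p` and
prime to each other and to `N`. For elliptic curves and `v` of degree one with `q_v = 1` modulo `p`
this means that the traces of Frobenius `a_v` are different modulo `p` and not `± 2`, and that `N` has
no common zero with `1 - a_v T + T ^ 2`.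

Proof. (1) is the congruence between the L-functions of `𝓕 ⊗ χ` and `𝓕`; for the other parts one uses
the duality and the arguments of `MP_1fe969_ag.AlgebraicClassesAndSigns`.
-/

set_option autoImplicit false

namespace Pool.Agent.J6H24.Shelf.FibredSurfacesInCoverings

open Polynomial Module Pool.Agent.J6H24.SS

variable {p q : ℕ} [Fact p.Prime] {S : Sheaf} {G : Type} [CommGroup G] {E : Type} [Field E]
  {V : Type} [AddCommGroup V] [Module E V] [FiniteDimensional E V] {W : Type} [AddCommGroup W]
  [Module E W] {C : Cover S G} {Φ : Module.End E V} {ρ : G →* Module.End E V}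
  {B : LinearMap.BilinForm E V}

/-- (1) For all `χ ≠ 1` the characteristic polynomial of Frobenius on the part of `χ` is `red_χ`
modulo all places above `p`. -/
def Reduction (p : ℕ) [Fact p.Prime] (h : IsH1 C q Φ ρ B) (T : Finset S.Pt) (N D : ℤ[X]) : Prop :=
  ∀ χ : G →* E, χ ≠ 1 → Reduces (onPiece h.comm χ) p (C.redL p T N D χ)

/-- (2) For all `χ ≠ 1` the multiplicity of the eigenvalue `q` on the part of `χ` is at most
`order χ - sign χ`. -/
def Multiplicity (p : ℕ) [Fact p.Prime] (h : IsH1 C q Φ ρ B) (T : Finset S.Pt) (N D : ℤ[X]) :
    Prop :=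
  ∀ χ : G →* E, χ ≠ 1 →
    genDim Φ ρ χ (q : E) + sign h.comm p q χ ≤ order p q (C.redL p T N D χ)

/-- (3) If for all `χ ≠ 1` the order is small and Frobenius is semisimple at `q` on the invariant part
of `V`, then `Ψ` is semisimple at `q`. -/
def WeakForm (p : ℕ) [Fact p.Prime] (h : IsH1 C q Φ ρ B) (T : Finset S.Pt) (N D : ℤ[X])
    (A : Submodule E V) (Ψ : Module.End E W) : Prop :=
  (∀ χ : G →* E, χ ≠ 1 →
    Small χ (order p q (C.redL p T N D χ)) (rank ρ A χ + sign h.comm p q χ)) →
  SemisimpleAt (onPiece h.comm (1 : G →* E)) (q : E) → SemisimpleAt Ψ (q : E)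

/-- (4) If all `red_χ`, `χ ≠ 1`, are mild and Frobenius is semisimple on the invariant part of `V`, then
`Ψ` is semisimple. -/
def StrongForm (p : ℕ) [Fact p.Prime] (h : IsH1 C q Φ ρ B) (T : Finset S.Pt) (N D : ℤ[X])
    (A : Submodule E V) (Ψ : Module.End E W) : Prop :=
  (∀ χ : G →* E, χ ≠ 1 → Mild χ p q (C.redL p T N D χ) (rank ρ A χ)) →
  (onPiece h.comm (1 : G →* E)).IsSemisimple → Ψ.IsSemisimple

/-- Semisimplicity of Frobenius on `H²` of fibred surfaces in abelian coverings of the base curve. -/
theorem result {s : ℕ} (hq : ¬ p ∣ q) [Fintype G] (hG : ∀ g : G, g ^ p ^ s = 1) [CharZero E]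
    [IsAlgClosed E] [FiniteDimensional E W] (h : IsH1 C q Φ ρ B) {Ψ : Module.End E W}
    {i : V →ₗ[E] W} {F : Submodule E W} (hW : IsH2 q Φ Ψ i F) (N D : ℤ[X])
    (hL : S.IsL Set.univ N D) (T : Finset S.Pt) (hT : C.Outside T) (hpos : ∀ v ∈ T, 0 < S.deg v)
    (A : Submodule E V) (hA : IsAlg q Φ ρ B A) :
    Reduction p h T N D ∧ Multiplicity p h T N D ∧ WeakForm p h T N D A Ψ ∧
      StrongForm p h T N D A Ψ := by
  have hred : ∀ χ : G →* E, χ ≠ 1 → Reduces (onPiece h.comm χ) p (C.redL p T N D χ) := by
    intro χ hχ
    have h1 : Reduces (onPiece h.comm χ) p (red p 1 (N * C.ramified T χ) D) :=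
      reduces hG (h.toCoh.grothendieck χ hχ) (isL_unr C hT hpos hL χ)
    have h2 : C.redL p T N D χ = red p 1 (N * C.ramified T χ) D := by
      unfold Cover.redL red
      rw [if_pos odd_one]
    rw [h2]
    exact h1
  refine ⟨hred, fun χ hχ => bound hq hG h _ hred hχ, fun hs h1 => ?_, fun hM h1 => ?_⟩
  · exact semisimpleAt_sum i hW.injective hW.frob hW.stable hW.sum (q : E)
      (weak hq hG h _ hred A hA hs h1) (onF hq hW)
  · exact semisimple_sum i hW.frob hW.stable hW.sum.sup_eq_top
      (strong hq hG h _ hred A hA hM h1) (onF hq hW)

end Pool.Agent.J6H24.Shelf.FibredSurfacesInCoverings
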